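import Mathlib

/-!
# Simultaneous equal sums of sixth powers and of squares: the quadratic relations can fail

Negative answer to Q1 of MP_befb39_nt:
`75^6 + 154^6 + 295^6 = 1^6 + 173^6 + 294^6`, `75^2 + 154^2 + 295^2 = 1^2 + 173^2 + 294^2`,
and no choice of signs, arrangement inside the two triples, and exchange of the triples satisfies
the three quadratic relations (R).
-/

set_option autoImplicit false

namespace Pool.Agent.Results.MP_befb39_nt.Exception

/-- The system (S) for `x = (a, b, c)` and `y = (d, e, f)`. -/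
def SystemS (x y : Fin 3 → ℤ) : Prop :=
  y 0 ^ 6 + y 1 ^ 6 + y 2 ^ 6 = x 0 ^ 6 + x 1 ^ 6 + x 2 ^ 6 ∧
  y 0 ^ 2 + y 1 ^ 2 + y 2 ^ 2 = x 0 ^ 2 + x 1 ^ 2 + x 2 ^ 2

/-- Trivial solutions: the multisets of squares agree. -/
def IsTrivial (x y : Fin 3 → ℤ) : Prop :=
  ({x 0 ^ 2, x 1 ^ 2, x 2 ^ 2} : Multiset ℤ) = {y 0 ^ 2, y 1 ^ 2, y 2 ^ 2}

/-- The relations (R) for `x = (a, b, c)` and `y = (d, e, f)`:
`f² + fc - c² = a² + ad - d²`, `d² + da - a² = b² + be - e²`, `e² + eb - b² = c² + cf - f²`. -/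
def RelR (x y : Fin 3 → ℤ) : Prop :=
  y 2 ^ 2 + y 2 * x 2 - x 2 ^ 2 = x 0 ^ 2 + x 0 * y 0 - y 0 ^ 2 ∧
  y 0 ^ 2 + y 0 * x 0 - x 0 ^ 2 = x 1 ^ 2 + x 1 * y 1 - y 1 ^ 2 ∧
  y 1 ^ 2 + y 1 * x 1 - x 1 ^ 2 = x 2 ^ 2 + x 2 * y 2 - y 2 ^ 2

/-- Some sextuple obtained from `(x, y)` by changing signs of entries, permuting the entries of `x`,
permuting the entries of `y`, and possibly exchanging the two triples, satisfies (R). -/
def RelRUpToSymmetry (x y : Fin 3 → ℤ) : Prop :=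
  ∃ (σ τ : Equiv.Perm (Fin 3)) (s t : Fin 3 → ℤˣ),
    RelR (fun i => (s i : ℤ) * x (σ i)) (fun i => (t i : ℤ) * y (τ i)) ∨
    RelR (fun i => (t i : ℤ) * y (τ i)) (fun i => (s i : ℤ) * x (σ i))

instance (x y : Fin 3 → ℤ) : Decidable (RelR x y) := by unfold RelR; infer_instance

instance (x y : Fin 3 → ℤ) : Decidable (RelRUpToSymmetry x y) := by
  unfold RelRUpToSymmetry; infer_instance

theorem no_rel : ¬ RelRUpToSymmetry ![75, 154, 295] ![1, 173, 294] := by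
  decide +kernel

/-- **Q1 of MP_befb39_nt, answer: no.** -/
theorem result : ¬ ∀ x y : Fin 3 → ℤ, SystemS x y → ¬ IsTrivial x y → RelRUpToSymmetry x y := by
  intro H
  refine no_rel (H _ _ ?_ ?_)
  · constructor <;> simp
  · unfold IsTrivial
    decide +kernel

end Pool.Agent.Results.MP_befb39_nt.Exception
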